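import Mathlib
import Pool.Agent.H18.LiouMat

namespace Pool.Agent.Results.MP_6d7a61_nt.Admissible

open Finset Pool.Agent.H18.GoodVec Pool.Agent.H18.LiouMat

/-- constant on no non-empty open set -/
def NowhereConstant {X Y : Type*} [TopologicalSpace X] (g : X → Y) : Prop :=
  ∀ U : Set X, IsOpen U → U.Nonempty → ¬ ∃ c : Y, ∀ x ∈ U, g x = c

/-- a rational matrix as a real matrix -/
def ofRat {m n : ℕ} (R : Matrix (Fin m) (Fin n) ℚ) : Matrix (Fin m) (Fin n) ℝ :=
  R.map (fun r => (r : ℝ))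

/-- the LIC property -/
def LIC {m n : ℕ} (f : Matrix (Fin m) (Fin n) ℝ → Matrix (Fin m) (Fin n) ℝ) : Prop :=
  ¬ ∃ Ω : Set (Matrix (Fin m) (Fin n) ℝ), (interior Ω).Nonempty ∧
    ∃ (p : Fin m → ℤ) (q : Fin n → ℤ), q ≠ 0 ∧ ∀ B ∈ f '' Ω, B.mulVec (toReal q) = toReal p

/-- strongly nowhere constant maps -/
def StronglyNowhereConstant {m n : ℕ}
    (f : Matrix (Fin m) (Fin n) ℝ → Matrix (Fin m) (Fin n) ℝ) : Prop :=
  ∀ (R₁ : Matrix (Fin m) (Fin m) ℚ) (R₂ : Matrix (Fin n) (Fin n) ℚ)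
    (T : Matrix (Fin m) (Fin n) ℚ), IsUnit R₁ → IsUnit R₂ → ∀ i j,
      NowhereConstant (fun A => (ofRat R₁ * f A * ofRat R₂ + ofRat T) i j)

/-- admissible pairs `(m, n)` -/
def IsAdmissible (m n : ℕ) : Prop :=
  ∃ f : Matrix (Fin m) (Fin n) ℝ → Matrix (Fin m) (Fin n) ℝ, Continuous f ∧
    StronglyNowhereConstant f ∧ LIC f ∧ ∀ A, ¬ IsLiouvilleMatrix (f A)

theorem nc_affine {m n : ℕ} (i : Fin m) (j : Fin n) (α β : ℝ) (hβ : β ≠ 0) :
    NowhereConstant (fun A : Matrix (Fin m) (Fin n) ℝ => α + β * A i j) := by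
  rintro U hU ⟨A, hA⟩ ⟨c, hc⟩
  let E : Matrix (Fin m) (Fin n) ℝ := Matrix.of (fun _ _ => 1)
  have hcont : Continuous (fun s : ℝ => A + s • E) := by fun_prop
  have hopen : IsOpen ((fun s : ℝ => A + s • E) ⁻¹' U) := hU.preimage hcont
  have h0 : (0 : ℝ) ∈ (fun s : ℝ => A + s • E) ⁻¹' U := by simpa using hA
  obtain ⟨ε, hε, hb⟩ := Metric.isOpen_iff.mp hopen 0 h0
  have h1 : ε / 2 ∈ (fun s : ℝ => A + s • E) ⁻¹' U := by
    apply hb
    rw [Metric.mem_ball, Real.dist_eq, sub_zero, abs_of_pos (by linarith)]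
    linarith
  have e1 := hc _ hA
  have e2 := hc _ h1
  simp only [E, Matrix.add_apply, Matrix.smul_apply, Matrix.of_apply, smul_eq_mul, mul_one] at e1 e2
  have : β * (ε / 2) = 0 := by linarith
  rcases mul_eq_zero.mp this with h | h
  · exact hβ h
  · linarith

theorem admissible_of_two_le (m n : ℕ) (hm : 2 ≤ m) (hn : 1 ≤ n) : IsAdmissible m n := by
  obtain ⟨γ, c, hc, K, h⟩ := good_hom (Fin m ⊕ Fin n)
  have hne : ∀ k : Fin m ⊕ Fin n → ℤ, k ≠ 0 → ∑ i, (k i : ℝ) * γ i ≠ 0 := by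
    intro k hk h0
    have hH : (1 : ℝ) ≤ 1 + ∑ i, |(k i : ℝ)| := by
      have : 0 ≤ ∑ i, |(k i : ℝ)| := Finset.sum_nonneg (fun i _ => abs_nonneg _)
      linarith
    have h1 := h k hk (1 + ∑ i, |(k i : ℝ)|) hH (fun i => by
      have := Finset.single_le_sum (f := fun i => |(k i : ℝ)|) (fun i _ => abs_nonneg _)
        (Finset.mem_univ i)
      linarith)
    rw [h0, abs_zero] at h1
    have : 0 < c / (1 + ∑ i, |(k i : ℝ)|) ^ K := by positivity
    linarith
  have hliZ : LinearIndependent ℤ γ := by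
    rw [Fintype.linearIndependent_iff]
    intro k hk
    by_contra hcon
    refine hne k (fun h0 => hcon (fun i => congrFun h0 i)) ?_
    simpa using hk
  have hli : LinearIndependent ℚ γ := (LinearIndependent.iff_fractionRing ℤ ℚ).mp hliZ
  have hla := Fintype.linearIndependent_iff.mp (hli.comp Sum.inl Sum.inl_injective)
  have hlb := Fintype.linearIndependent_iff.mp (hli.comp Sum.inr Sum.inr_injective)
  let i₀ : Fin m := ⟨0, by omega⟩
  let i₁ : Fin m := ⟨1, by omega⟩
  let j₀ : Fin n := ⟨0, by omega⟩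
  have h01 : i₀ ≠ i₁ := by simp [i₀, i₁]
  have ha1 : γ (Sum.inl i₁) ≠ 0 := hli.ne_zero _
  let A₀ : Matrix (Fin m) (Fin n) ℝ :=
    Matrix.of (fun i j => if i = i₀ then γ (Sum.inr j) / γ (Sum.inl i₁) else 0)
  let E : Matrix (Fin m) (Fin n) ℝ := Matrix.of (fun i j => γ (Sum.inl i) * γ (Sum.inr j))
  let k : (Fin m → ℤ) → (Fin n → ℤ) → (Fin m ⊕ Fin n → ℤ) := fun x y =>
    Sum.elim (fun i => (if i = i₀ then x i₁ else 0) - (if i = i₁ then x i₀ else 0)) y
  have hk0 : ∀ x y, y ≠ 0 → k x y ≠ 0 := by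
    intro x y hy h0
    apply hy
    funext j
    exact congrFun h0 (Sum.inr j)
  have key : ∀ (t : ℝ) x y, ∑ i, (k x y i : ℝ) * γ i =
      γ (Sum.inl i₁) * ((A₀ + t • E).mulVec (toReal y) - toReal x) i₀ -
      γ (Sum.inl i₀) * ((A₀ + t • E).mulVec (toReal y) - toReal x) i₁ := by
    intro t x y
    have e0 : (A₀ + t • E).mulVec (toReal y) i₀ =
        (∑ j, (y j : ℝ) * γ (Sum.inr j)) * (1 / γ (Sum.inl i₁) + t * γ (Sum.inl i₀)) := by
      simp only [Matrix.mulVec, dotProduct, A₀, E, toReal, Matrix.add_apply, Matrix.smul_apply,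
        Matrix.of_apply, if_true, smul_eq_mul, Finset.sum_mul]
      exact Finset.sum_congr rfl (fun j _ => by ring)
    have e1 : (A₀ + t • E).mulVec (toReal y) i₁ =
        (∑ j, (y j : ℝ) * γ (Sum.inr j)) * (t * γ (Sum.inl i₁)) := by
      simp only [Matrix.mulVec, dotProduct, A₀, E, toReal, Matrix.add_apply, Matrix.smul_apply,
        Matrix.of_apply, h01.symm, if_false, smul_eq_mul, Finset.sum_mul]
      exact Finset.sum_congr rfl (fun j _ => by ring)
    rw [Pi.sub_apply, Pi.sub_apply, e0, e1, Fintype.sum_sum_type]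
    simp only [k, Sum.elim_inl, Sum.elim_inr, toReal]
    push_cast
    simp only [sub_mul, Finset.sum_sub_distrib, ite_mul, zero_mul, Finset.sum_ite_eq',
      Finset.mem_univ, if_true]
    field_simp
    ring
  refine ⟨fun A => A₀ + A i₀ j₀ • E, by fun_prop, ?_, ?_, ?_⟩
  · intro R₁ R₂ T h₁ h₂ i j
    have hu : ∑ l, (R₁ i l : ℝ) * γ (Sum.inl l) ≠ 0 := by
      intro h0
      have h3 := hla (fun l => R₁ i l) (by simpa [Rat.smul_def] using h0)
      obtain ⟨S, hS⟩ := h₁.exists_right_inv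
      have := congrFun (congrFun hS i) i
      simp [Matrix.mul_apply, h3] at this
    have hv : ∑ l, (R₂ l j : ℝ) * γ (Sum.inr l) ≠ 0 := by
      intro h0
      have h3 := hlb (fun l => R₂ l j) (by simpa [Rat.smul_def] using h0)
      obtain ⟨S, hS⟩ := h₂.exists_left_inv
      have := congrFun (congrFun hS j) j
      simp [Matrix.mul_apply, h3] at this
    have hE : (ofRat R₁ * E * ofRat R₂) i j =
        (∑ l, (R₁ i l : ℝ) * γ (Sum.inl l)) * ∑ l, (R₂ l j : ℝ) * γ (Sum.inr l) := by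
      simp only [Matrix.mul_apply, ofRat, E, Matrix.map_apply, Matrix.of_apply, Finset.mul_sum,
        Finset.sum_mul]
      exact Finset.sum_congr rfl (fun a _ => Finset.sum_congr rfl (fun b _ => by ring))
    have hfun : (fun A : Matrix (Fin m) (Fin n) ℝ =>
        (ofRat R₁ * (A₀ + A i₀ j₀ • E) * ofRat R₂ + ofRat T) i j) =
        fun A => (ofRat R₁ * A₀ * ofRat R₂ + ofRat T) i j +
          (ofRat R₁ * E * ofRat R₂) i j * A i₀ j₀ := by
      funext A
      rw [Matrix.mul_add, Matrix.add_mul, Matrix.mul_smul, Matrix.smul_mul]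
      simp only [Matrix.add_apply, Matrix.smul_apply, smul_eq_mul]
      ring
    rw [hfun]
    exact nc_affine _ _ _ _ (by rw [hE]; exact mul_ne_zero hu hv)
  · rintro ⟨Ω, ⟨A, hA⟩, p, q, hq, hB⟩
    have h1 := hB _ ⟨A, interior_subset hA, rfl⟩
    refine hne (k p q) (hk0 p q hq) ?_
    rw [key (A i₀ j₀), h1]
    simp
  · intro A hA
    set B := A₀ + A i₀ j₀ • E with hB
    set C : ℝ := ∑ i, ∑ j, |B i j| + 1 with hC
    have hrow : ∀ i, ∑ j, |B i j| ≤ C - 1 := fun i => by
      have := Finset.single_le_sum (f := fun i => ∑ j, |B i j|)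
        (fun i _ => Finset.sum_nonneg (fun j _ => abs_nonneg _)) (Finset.mem_univ i)
      linarith
    have hC1 : 1 ≤ C := by
      have := Finset.sum_nonneg (fun j (_ : j ∈ Finset.univ) => abs_nonneg (B i₀ j))
      linarith [hrow i₀]
    obtain ⟨N, hN, hs⟩ := no_small (c / C ^ K) (|γ (Sum.inl i₁)| + |γ (Sum.inl i₀)|)
      (by positivity) (by positivity) K
    obtain ⟨x, y, hy, hxy⟩ := hA.2 N (by exact_mod_cast hN)
    obtain ⟨j, hj⟩ := exists_two_le y hy
    set Y := ‖toReal y‖ with hY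
    have hb : ∀ l, |(y l : ℝ)| ≤ Y := abs_le_norm y
    have hY2 : 2 ≤ Y := hj.trans (hb j)
    have hy0 : y ≠ 0 := by
      intro h0; rw [h0] at hj; norm_num at hj
    have he : ∀ i, |(B.mulVec (toReal y) - toReal x) i| ≤ Y ^ (-(N : ℝ)) :=
      fun i => (norm_le_pi_norm _ i).trans hxy.le
    have hY1 : Y ^ (-(N : ℝ)) ≤ 1 :=
      Real.rpow_le_one_of_one_le_of_nonpos hy.le (neg_nonpos.mpr (Nat.cast_nonneg N))
    have hx : ∀ i, |(x i : ℝ)| ≤ C * Y := by
      intro i
      have h1 := (he i).trans hY1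
      have h2 : |B.mulVec (toReal y) i| ≤ (C - 1) * Y := by
        simp only [Matrix.mulVec, dotProduct, toReal]
        refine (Finset.abs_sum_le_sum_abs _ _).trans ?_
        refine le_trans ?_ (mul_le_mul_of_nonneg_right (hrow i) (by linarith))
        rw [Finset.sum_mul]
        refine Finset.sum_le_sum (fun l _ => ?_)
        rw [abs_mul]
        exact mul_le_mul_of_nonneg_left (hb l) (abs_nonneg _)
      have h3 := abs_sub_abs_le_abs_sub (toReal x i) (B.mulVec (toReal y) i)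
      rw [abs_sub_comm] at h3
      rw [Pi.sub_apply] at h1
      simp only [toReal] at h1 h2 h3 ⊢
      nlinarith
    have h1 := h (k x y) (hk0 x y hy0) (C * Y) (by nlinarith) (by
      rintro (i | l)
      · simp only [k, Sum.elim_inl]
        by_cases e0 : i = i₀
        · simp only [e0, h01, if_true, if_false, sub_zero]; exact hx _
        · by_cases e1 : i = i₁
          · simp only [e1, h01.symm, if_true, if_false, zero_sub, Int.cast_neg, abs_neg]
            exact hx _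
          · simp only [e0, e1, if_false, sub_zero, Int.cast_zero, abs_zero]
            positivity
      · exact (hb l).trans (by nlinarith))
    rw [key (A i₀ j₀), ← hB] at h1
    have h4 := h1.trans (abs_sub _ _)
    rw [abs_mul, abs_mul] at h4
    have h5 := mul_le_mul_of_nonneg_left (he i₀) (abs_nonneg (γ (Sum.inl i₁)))
    have h6 := mul_le_mul_of_nonneg_left (he i₁) (abs_nonneg (γ (Sum.inl i₀)))
    have h7 := hs Y hY2
    have h8 : c / (C * Y) ^ K = c / C ^ K / Y ^ K := by rw [mul_pow, div_div]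
    rw [h8] at h4
    linarith

theorem not_admissible_one (n : ℕ) (hn : 1 ≤ n) : ¬ IsAdmissible 1 n := by
  rintro ⟨f, hf, hs, hl, hL⟩
  let j₀ : Fin n := ⟨0, by omega⟩
  have hnc : NowhereConstant (fun A => f A 0 j₀) := by
    have h1 := hs 1 1 0 isUnit_one isUnit_one 0 j₀
    have e1 : ∀ r : ℕ, ofRat (1 : Matrix (Fin r) (Fin r) ℚ) = 1 := fun r =>
      Matrix.map_one _ (by simp) (by simp)
    have e0 : ofRat (0 : Matrix (Fin 1) (Fin n) ℚ) = 0 := Matrix.map_zero _ (by simp)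
    simpa only [e1, e0, Matrix.one_mul, Matrix.mul_one, add_zero] using h1
  have hmv : ∀ y : Fin n → ℝ, Continuous (fun A => (f A).mulVec y) :=
    fun y => hf.matrix_mulVec continuous_const
  let V : (Fin n → ℤ) × (Fin 1 → ℤ) → Set (Matrix (Fin 1) (Fin n) ℝ) := fun z =>
    {A | z.1 ≠ 0 → (f A).mulVec (toReal z.1) ≠ toReal z.2}
  let U : ℕ → Set (Matrix (Fin 1) (Fin n) ℝ) := fun N =>
    {A | ∃ (x : Fin 1 → ℤ) (y : Fin n → ℤ), 1 < ‖toReal y‖ ∧
      ‖(f A).mulVec (toReal y) - toReal x‖ < ‖toReal y‖ ^ (-(N : ℝ))}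
  have hVo : ∀ z, IsOpen (V z) := by
    intro z
    by_cases hz : z.1 = 0
    · have : V z = Set.univ := Set.eq_univ_of_forall (fun A h => absurd hz h)
      rw [this]; exact isOpen_univ
    · have : V z = {A | (f A).mulVec (toReal z.1) ≠ toReal z.2} := by
        ext A; simp [V, hz]
      rw [this]
      exact isOpen_ne_fun (hmv _) continuous_const
  have hVd : ∀ z, Dense (V z) := by
    intro z
    rw [dense_iff_inter_open]
    intro O hO hne
    by_contra hcon
    rw [Set.not_nonempty_iff_eq_empty] at hcon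
    have h1 : ∀ A ∈ O, z.1 ≠ 0 ∧ (f A).mulVec (toReal z.1) = toReal z.2 := by
      intro A hA
      by_contra h2
      have : A ∈ O ∩ V z := ⟨hA, fun h3 h4 => h2 ⟨h3, h4⟩⟩
      rw [hcon] at this
      exact this
    obtain ⟨A, hA⟩ := hne
    refine hl ⟨O, ⟨A, by rwa [hO.interior_eq]⟩, z.2, z.1, (h1 A hA).1, ?_⟩
    rintro B ⟨A', hA', rfl⟩
    exact (h1 A' hA').2
  have hUo : ∀ N, IsOpen (U N) := by
    intro N
    have : U N = ⋃ (x : Fin 1 → ℤ), ⋃ (y : Fin n → ℤ), ⋃ (_ : 1 < ‖toReal y‖),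
        {A | ‖(f A).mulVec (toReal y) - toReal x‖ < ‖toReal y‖ ^ (-(N : ℝ))} := by
      ext A; simp [U]
    rw [this]
    refine isOpen_iUnion (fun x => isOpen_iUnion (fun y => isOpen_iUnion (fun _ => ?_)))
    exact isOpen_lt ((hmv _).sub continuous_const).norm continuous_const
  have hUd : ∀ N, Dense (U N) := by
    intro N
    rw [dense_iff_inter_open]
    rintro O hO ⟨A, hA⟩
    have : LocallyConnectedSpace (Matrix (Fin 1) (Fin n) ℝ) :=
      inferInstanceAs (LocallyConnectedSpace (Fin 1 → Fin n → ℝ))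
    have hW : IsOpen (connectedComponentIn O A) := hO.connectedComponentIn
    have hAW : A ∈ connectedComponentIn O A := mem_connectedComponentIn hA
    have hpc : IsPreconnected (connectedComponentIn O A) := isPreconnected_connectedComponentIn
    have hg : Continuous (fun A => f A 0 j₀) := hf.matrix_elem 0 j₀
    obtain ⟨A₁, h₁, A₂, h₂, h12⟩ : ∃ A₁ ∈ connectedComponentIn O A,
        ∃ A₂ ∈ connectedComponentIn O A, f A₁ 0 j₀ < f A₂ 0 j₀ := by
      have h1 := hnc _ hW ⟨A, hAW⟩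
      push Not at h1
      obtain ⟨A', hA', h2⟩ := h1 (f A 0 j₀)
      rcases lt_or_gt_of_ne h2 with h3 | h3
      · exact ⟨A', hA', A, hAW, h3⟩
      · exact ⟨A, hAW, A', hA', h3⟩
    obtain ⟨r, hr1, hr2⟩ := exists_rat_btwn h12
    obtain ⟨A₃, h₃, e₃⟩ := hpc.intermediate_value h₁ h₂ hg.continuousOn ⟨hr1.le, hr2.le⟩
    have hn1 : 1 < ‖toReal (Pi.single j₀ (2 * r.den : ℤ) : Fin n → ℤ)‖ := by
      refine lt_of_lt_of_le ?_ (abs_le_norm _ j₀)
      have h1 : (1 : ℝ) ≤ r.den := by exact_mod_cast r.den_pos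
      simp only [Pi.single_eq_same]
      push_cast
      rw [abs_of_pos (by linarith)]
      linarith
    refine ⟨A₃, connectedComponentIn_subset _ _ h₃, fun _ => 2 * r.num,
      Pi.single j₀ (2 * r.den : ℤ), hn1, ?_⟩
    have h0 : (f A₃).mulVec (toReal (Pi.single j₀ (2 * r.den : ℤ) : Fin n → ℤ)) -
        toReal (fun _ : Fin 1 => 2 * r.num) = 0 := by
      funext i
      rw [Subsingleton.elim i 0]
      have e4 : toReal (Pi.single j₀ (2 * r.den : ℤ) : Fin n → ℤ) =
          Pi.single j₀ (2 * r.den : ℝ) := by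
        funext l
        by_cases h : l = j₀
        · subst h; simp [toReal]
        · simp [toReal, h]
      simp only at e₃
      rw [Pi.sub_apply, e4, Matrix.mulVec_single]
      simp only [toReal, Pi.smul_apply, Matrix.col_apply, e₃, Pi.zero_apply, MulOpposite.smul_eq_mul_unop, MulOpposite.unop_op]
      push_cast
      have h5 : (r : ℝ) * r.den = r.num := by exact_mod_cast Rat.mul_den_eq_num r
      linarith
    rw [h0, norm_zero]
    exact Real.rpow_pos_of_pos (by linarith) _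
  have : BaireSpace (Matrix (Fin 1) (Fin n) ℝ) :=
    inferInstanceAs (BaireSpace (Fin 1 → Fin n → ℝ))
  have hd := (dense_iInter_of_isOpen hVo hVd).inter_of_Gδ (IsGδ.iInter (fun z => (hVo z).isGδ))
    (IsGδ.iInter (fun N => (hUo N).isGδ)) (dense_iInter_of_isOpen hUo hUd)
  obtain ⟨A, hA1, hA2⟩ := hd.nonempty
  rw [Set.mem_iInter] at hA1 hA2
  refine hL A ⟨fun y x hyx => ?_, fun N _ => ?_⟩
  · by_cases hy : y = 0
    · intro h
      apply hyx
      refine ⟨hy, ?_⟩
      funext i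
      have h1 := congrFun h i
      have h2 : toReal y = 0 := by funext l; simp [toReal, hy]
      rw [h2, Matrix.mulVec_zero] at h1
      simp only [toReal, Pi.zero_apply] at h1
      exact_mod_cast h1.symm
    · exact hA1 (y, x) hy
  · obtain ⟨x, y, h1, h2⟩ := hA2 ⌈N⌉₊
    exact ⟨x, y, h1, h2.trans_le
      (Real.rpow_le_rpow_of_exponent_le h1.le (neg_le_neg (Nat.le_ceil N)))⟩

theorem result :
    (∀ ξ : ℝ, IsLiouvilleMatrix (Matrix.of (fun (_ _ : Fin 1) => ξ)) ↔ Liouville ξ) ∧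
    ∀ m n : ℕ, 1 ≤ m → 1 ≤ n → (IsAdmissible m n ↔ 2 ≤ m) := by
  refine ⟨one_one_iff, fun m n hm hn => ⟨fun h => ?_, fun h => admissible_of_two_le m n h hn⟩⟩
  by_contra h2
  have : m = 1 := by omega
  subst this
  exact not_admissible_one n hn h

end Pool.Agent.Results.MP_6d7a61_nt.Admissible
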